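import Pool.Agent.Helper50.Tm.Goals

set_option autoImplicit false

/-!
Packet TM-EHP: the group law near the unit, in terms of points.
-/

open CategoryTheory AlgebraicGeometry Limits TensorProduct MonoidalCategory
open scoped Obj

namespace Pool.Agent.Helper24.Tm

open Pool.Agent.Helper40.Nm (specOver homGroup specialFibre)
open Pool.Agent.Helper50.Tm

/-- Two morphisms from a spectrum into an affine open subset which agree after two jointly injective
ring homomorphisms are equal. -/
theorem eq_of_two {X : Scheme} {D E : CommRingCat} (a b : D ⟶ E) (f g : Spec D ⟶ X)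
    (hinj : ∀ d, a.hom d = 0 → b.hom d = 0 → d = 0) (h1 : Spec.map a ≫ f = Spec.map a ≫ g)
    (h2 : Spec.map b ≫ f = Spec.map b ≫ g) (U : X.Opens) (hU : IsAffineOpen U)
    (hf : ∀ x, f x ∈ U) (hg : ∀ x, g x ∈ U) : f = g := by
  have : IsAffine U := hU
  have hf' : Set.range f ⊆ Set.range U.ι := by
    rw [Scheme.Opens.range_ι]
    rintro _ ⟨x, rfl⟩
    exact hf x
  have hg' : Set.range g ⊆ Set.range U.ι := by
    rw [Scheme.Opens.range_ι]
    rintro _ ⟨x, rfl⟩
    exact hg x
  let f' := IsOpenImmersion.lift U.ι f hf'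
  let g' := IsOpenImmersion.lift U.ι g hg'
  have ef : f' ≫ U.ι = f := IsOpenImmersion.lift_fac _ _ _
  have eg : g' ≫ U.ι = g := IsOpenImmersion.lift_fac _ _ _
  obtain ⟨φ, hφ⟩ := Spec.map_surjective (f' ≫ (U : Scheme).isoSpec.hom)
  obtain ⟨γ, hγ⟩ := Spec.map_surjective (g' ≫ (U : Scheme).isoSpec.hom)
  have k1 : Spec.map a ≫ f' = Spec.map a ≫ g' := by
    rw [← cancel_mono U.ι, Category.assoc, Category.assoc, ef, eg, h1]
  have k2 : Spec.map b ≫ f' = Spec.map b ≫ g' := by
    rw [← cancel_mono U.ι, Category.assoc, Category.assoc, ef, eg, h2]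
  have l1 : φ ≫ a = γ ≫ a := by
    apply Spec.map_injective
    rw [Spec.map_comp, Spec.map_comp, hφ, hγ, ← Category.assoc, ← Category.assoc, k1]
  have l2 : φ ≫ b = γ ≫ b := by
    apply Spec.map_injective
    rw [Spec.map_comp, Spec.map_comp, hφ, hγ, ← Category.assoc, ← Category.assoc, k2]
  have l3 : φ = γ := by
    ext r
    have m1 : a.hom (φ.hom r - γ.hom r) = 0 := by
      rw [map_sub, sub_eq_zero]
      exact congrArg (fun t => t.hom r) l1
    have m2 : b.hom (φ.hom r - γ.hom r) = 0 := by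
      rw [map_sub, sub_eq_zero]
      exact congrArg (fun t => t.hom r) l2
    exact sub_eq_zero.mp (hinj _ m1 m2)
  have l4 : f' = g' := by
    rw [← cancel_mono (U : Scheme).isoSpec.hom, ← hφ, ← hγ, l3]
  rw [← ef, ← eg, l4]

theorem gEHP : EHP := by
  intro k _ G _ D E _ _ _ _ p₁ p₂ i₁ i₂ ε hε hinj h11 h22 h12 h21 hnil x y T hx hy hT1 hT2
  have e11 : p₁.comp i₁ = AlgHom.id k E := AlgHom.ext h11
  have e22 : p₂.comp i₂ = AlgHom.id k E := AlgHom.ext h22
  have e12 : p₁.comp i₂ = (Algebra.ofId k E).comp ε := AlgHom.ext h12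
  have e21 : p₂.comp i₁ = (Algebra.ofId k E).comp ε := AlgHom.ext h21
  have hS1 : (x.map i₁ * y.map i₂).map p₁ = x := by
    rw [Pts.map_mul, ← Pts.map_comp, ← Pts.map_comp, e11, e12, Pts.map_id, Pts.map_comp, hy,
      Pts.map_one, mul_one]
  have hS2 : (x.map i₁ * y.map i₂).map p₂ = y := by
    rw [Pts.map_mul, ← Pts.map_comp, ← Pts.map_comp, e22, e21, Pts.map_id, Pts.map_comp, hx,
      Pts.map_one, one_mul]
  set S : Pts G D := x.map i₁ * y.map i₂ with hSdef
  -- the points
  let q : D →ₐ[k] k := ε.comp p₁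
  have hTq : T.map q = 1 := by
    show T.map (ε.comp p₁) = 1
    rw [Pts.map_comp, hT1, hx]
  have hSq : S.map q = 1 := by
    show S.map (ε.comp p₁) = 1
    rw [Pts.map_comp, hS1, hx]
  have hkn : ∀ d, q d = 0 → IsNilpotent d := by
    intro d hd
    have n1 : IsNilpotent (p₁ d) := hnil _ hd
    have n2 : IsNilpotent (p₂ d) := hnil _ (by rw [← hε]; exact hd)
    obtain ⟨a, ha⟩ := n1
    obtain ⟨b, hb⟩ := n2
    refine ⟨a + b, hinj _ ?_ ?_⟩
    · rw [map_pow, pow_add, ha, zero_mul]
    · rw [map_pow, pow_add, hb, mul_zero]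
  have hqs : Function.Surjective q := by
    intro c
    exact ⟨algebraMap k D c, by rw [AlgHom.commutes]; rfl⟩
  have hpt : ∀ z : Spec (CommRingCat.of D), z = (Spec.map (CommRingCat.ofHom q.toRingHom))
      (IsLocalRing.closedPoint k) := by
    intro z
    apply PrimeSpectrum.ext
    have hle : RingHom.ker q.toRingHom ≤ z.asIdeal := by
      intro d hd
      obtain ⟨n, hn⟩ := hkn d hd
      apply z.isPrime.mem_of_pow_mem n
      rw [hn]
      exact z.asIdeal.zero_mem
    have hmax : (RingHom.ker q.toRingHom).IsMaximal :=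
      RingHom.ker_isMaximal_of_surjective _ hqs
    have h1 := hmax.eq_of_le z.isPrime.ne_top hle
    rw [← h1]
    show RingHom.ker q.toRingHom = Ideal.comap q.toRingHom (IsLocalRing.maximalIdeal k)
    rw [IsLocalRing.maximalIdeal_eq_bot]
    rfl
  have hval : ∀ W : Pts G D, W.map q = 1 → ∀ z : Spec (CommRingCat.of D),
      W.left z = (1 : Pts G k).left (IsLocalRing.closedPoint k) := by
    intro W hW z
    rw [hpt z, ← hW]
    rfl
  obtain ⟨U, hU, heU, -⟩ := exists_isAffineOpen_mem_and_subset (X := G.left)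
    (x := (1 : Pts G k).left (IsLocalRing.closedPoint k)) (U := ⊤) trivial
  apply Over.OverMorphism.ext
  refine eq_of_two (CommRingCat.ofHom p₁.toRingHom) (CommRingCat.ofHom p₂.toRingHom) T.left S.left
    (fun d h1 h2 => hinj d h1 h2) ?_ ?_ U hU ?_ ?_
  · have := congrArg CommaMorphism.left (hT1.trans hS1.symm)
    exact this
  · have := congrArg CommaMorphism.left (hT2.trans hS2.symm)
    exact this
  · intro z
    rw [hval T hTq z]
    exact heU
  · intro z
    rw [hval S hSq z]
    exact heU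

end Pool.Agent.Helper24.Tm
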