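import Pool.Agent.Helper50.Tm.Goals

set_option autoImplicit false

/-!
Packet TM-FINS: split reduction from a subgroup of sections.
-/

open CategoryTheory AlgebraicGeometry Limits TensorProduct MonoidalCategory
open scoped Obj

namespace Pool.Agent.Helper24.Tm

open Pool.Agent.Helper40.Nm (specOver homGroup specialFibre)
open Pool.Agent.Helper50.Tm

theorem redk_left {R : Type} [CommRing R] [IsLocalRing R]
    {G : Over (Spec (CommRingCat.of R))} (s : Pts G R) :
    (redk s).left (IsLocalRing.closedPoint (IsLocalRing.ResidueField R)) = cpt s := by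
  have h1 : (redk s).left =
      Spec.map (CommRingCat.ofHom (IsLocalRing.residue R)) ≫ s.left := rfl
  rw [h1]
  have h2 : (Spec.map (CommRingCat.ofHom (IsLocalRing.residue R)) ≫ s.left)
      (IsLocalRing.closedPoint (IsLocalRing.ResidueField R)) =
      s.left ((Spec.map (CommRingCat.ofHom (IsLocalRing.residue R)))
        (IsLocalRing.closedPoint (IsLocalRing.ResidueField R))) := rfl
  rw [h2]
  unfold cpt
  congr 1
  exact IsLocalRing.comap_closedPoint (IsLocalRing.residue R)

theorem gFINS (hREDS : REDS) : FINS := by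
  intro R _ _ _ _ _ G _ hsm Λ hΛ1 hΛ2
  obtain ⟨-, -, h3⟩ := hREDS R G hsm
  -- the reduction homomorphism
  let ρ : Pts G R →* Pts G (IsLocalRing.ResidueField R) :=
    Pts.mapHom (Algebra.ofId R (IsLocalRing.ResidueField R))
  refine ⟨Λ.map ρ, ?_⟩
  intro x hx
  obtain ⟨s, hcomp⟩ := h3 x hx
  obtain ⟨l, hl, hsl⟩ := hΛ1 s
  refine ⟨redk l, ⟨⟨l, hl, rfl⟩, ?_⟩, ?_⟩
  · rw [redk_left, hcomp]
    exact hsl
  · rintro r ⟨⟨l', hl', rfl⟩, hr⟩
    have hr' : cpt l' ∈ connectedComponentIn (specialFibre G) x := by
      have h := hr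
      rw [show ρ l' = redk l' from rfl, redk_left] at h
      exact h
    have hl2 : cpt l ∈ connectedComponentIn (specialFibre G) x := by
      rw [hcomp]
      exact hsl
    have h4 : SameComp l' l := by
      show cpt l ∈ connectedComponentIn (specialFibre G) (cpt l')
      rw [← connectedComponentIn_eq hr']
      exact hl2
    exact hΛ2 l' hl' l hl h4

end Pool.Agent.Helper24.Tm
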