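import Pool.Agent.Helper50.Tm.Goals

set_option autoImplicit false

/-!
Packet TM-TREX: existence, uniqueness and additivity of the trace.
-/

open CategoryTheory AlgebraicGeometry Limits TensorProduct MonoidalCategory
open scoped Obj

namespace Pool.Agent.Helper24.Tm

open Pool.Agent.Helper40.Nm (specOver homGroup specialFibre)
open Pool.Agent.Helper50.Tm

theorem gTREX (hDESC : DESC) : TREX := by
  intro K M N _ _ _ _ _ _ _ _ _ X _ _
  have hpush : Algebra.IsPushout M N M N := inferInstance
  have key : ∀ x : Pts X N,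
      (∀ γ : N ≃ₐ[M] N, x.map ((γ : N →ₐ[M] N).restrictScalars K) = x) →
      ∃! y : Pts X M, y.map (IsScalarTower.toAlgHom K M N) = x :=
    hDESC K M N M N X (fun γ => (γ : N →ₐ[M] N)) (fun γ n => rfl)
  have hinv : ∀ y : Pts X M, ∀ γ : N ≃ₐ[M] N,
      (y.map (IsScalarTower.toAlgHom K M N)).map ((γ : N →ₐ[M] N).restrictScalars K) =
        y.map (IsScalarTower.toAlgHom K M N) := by
    intro y γ
    rw [← Pts.map_comp]
    congr 1
    apply AlgHom.ext
    intro m
    exact (γ : N →ₐ[M] N).commutes m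
  have huniq : ∀ y y' : Pts X M, y.map (IsScalarTower.toAlgHom K M N) =
      y'.map (IsScalarTower.toAlgHom K M N) → y = y' := by
    intro y y' h
    exact (key _ (hinv y')).unique h rfl
  -- the product of the conjugates
  let P : Pts X N → Pts X N := fun x => ∏ γ : N ≃ₐ[M] N, x.map ((γ : N →ₐ[M] N).restrictScalars K)
  have hPinv : ∀ x : Pts X N, ∀ δ : N ≃ₐ[M] N,
      (P x).map ((δ : N →ₐ[M] N).restrictScalars K) = P x := by
    intro x δ
    show Pts.mapHom ((δ : N →ₐ[M] N).restrictScalars K)
      (∏ γ : N ≃ₐ[M] N, x.map ((γ : N →ₐ[M] N).restrictScalars K)) = _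
    rw [map_prod]
    refine Fintype.prod_equiv (Equiv.mulLeft δ) _ _ ?_
    intro γ
    rw [Pts.mapHom_apply, ← Pts.map_comp]
    rfl
  have hPmul : ∀ x x' : Pts X N, P (x * x') = P x * P x' := by
    intro x x'
    show ∏ γ : N ≃ₐ[M] N, (x * x').map ((γ : N →ₐ[M] N).restrictScalars K) = _
    rw [← Finset.prod_mul_distrib]
    exact Finset.prod_congr rfl fun γ _ => Pts.map_mul _ _ _
  refine ⟨huniq, fun x hx => (key x hx).exists, ?_⟩
  choose f hf using fun x : Pts X N => (key (P x) (hPinv x)).exists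
  refine ⟨MonoidHom.mk' f ?_, ?_⟩
  · intro x x'
    apply huniq
    rw [hf, Pts.map_mul, hf, hf, hPmul]
  · intro x y
    show y.map (IsScalarTower.toAlgHom K M N) = P x ↔ f x = y
    constructor
    · intro h
      apply huniq
      rw [hf, h]
    · rintro rfl
      exact hf x

end Pool.Agent.Helper24.Tm
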